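import Pool.Agent.Y856.RF.A

/-! Redheffer matrices: a positive proportion of the nontrivial eigenvalues is large, for infinitely many
orders. -/

set_option autoImplicit false

namespace Pool.Agent.Y856.RF

open Pool.Agent.H486R2 Pool.Agent.H486R2.Red Filter Topology

/-- the factor of a large eigenvalue -/
lemma factor_le {r ρ u : ℝ} (hρ : 0 < ρ) (hρr : ρ ≤ r) (hu : 0 ≤ u) :
    1 + r ^ 2 * u ^ 2 ≤ 2 * (r / ρ) ^ 2 * (max 1 (ρ * u)) ^ 2 := by
  have hr : 0 < r := lt_of_lt_of_le hρ hρr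
  have h1 : 1 ≤ r / ρ := by rw [le_div_iff₀ hρ]; linarith
  set m := max 1 (ρ * u) with hm
  have hm1 : 1 ≤ m := le_max_left _ _
  have hm2 : ρ * u ≤ m := le_max_right _ _
  have h2 : r * u = (r / ρ) * (ρ * u) := by field_simp
  have h3 : r * u ≤ (r / ρ) * m := by
    rw [h2]; exact mul_le_mul_of_nonneg_left hm2 (by positivity)
  have h4 : 1 ≤ (r / ρ) * m := by nlinarith
  have h5 : (r * u) ^ 2 ≤ ((r / ρ) * m) ^ 2 := pow_le_pow_left₀ (by positivity) h3 2
  have h6 : (1 : ℝ) ≤ ((r / ρ) * m) ^ 2 := one_le_pow₀ h4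
  calc 1 + r ^ 2 * u ^ 2 = 1 + (r * u) ^ 2 := by ring
    _ ≤ 2 * ((r / ρ) * m) ^ 2 := by linarith
    _ = _ := by ring

/-- If few eigenvalues have modulus larger than `R`, then `|G_n(r) G_n(-r)|` is small. -/
lemma GG_bound' {n : ℕ} (hn : 1 ≤ n) {R r : ℝ} (hR : 1 ≤ R) (hr : 0 < r) (hr1 : r ≤ 1) :
    ‖G n r * G n (-r)‖ ≤
      (2048 : ℝ) ^ Multiset.card ((redC n).charpoly.roots.filter (fun x => R < ‖x‖))
        * (2 * (n : ℝ) ^ (1 + r / 16)) ^ 2 * (1 + r ^ 2 * (1 + R) ^ 2) ^ (Nat.log 2 n + 1) := by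
  set M := (redC n).charpoly.roots with hM
  set g : ℂ → ℝ := fun x => ‖1 - (r : ℂ) ^ 2 * (x - 1) ^ 2‖ with hg
  have h1 : ‖G n r * G n (-r)‖ = (M.map g).prod := by
    rw [G_prod, G_prod, ← Multiset.prod_map_mul]
    have : ‖(M.map (fun x => (1 - (r : ℂ) * (x - 1)) * (1 - (-(r : ℂ)) * (x - 1)))).prod‖
        = ((M.map (fun x => (1 - (r : ℂ) * (x - 1)) * (1 - (-(r : ℂ)) * (x - 1)))).map
          (fun y => ‖y‖)).prod := by
      generalize M.map (fun x => (1 - (r : ℂ) * (x - 1)) * (1 - (-(r : ℂ)) * (x - 1))) = s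
      induction s using Multiset.induction_on with
      | empty => simp
      | cons a s ih => rw [Multiset.prod_cons, norm_mul, Multiset.map_cons, Multiset.prod_cons, ih]
    rw [this, Multiset.map_map]
    congr 1
    refine Multiset.map_congr rfl fun x _ => ?_
    simp only [Function.comp_apply, hg]
    congr 1
    ring
  have hgx : ∀ x : ℂ, g x ≤ 1 + r ^ 2 * ‖x - 1‖ ^ 2 := by
    intro x
    calc g x ≤ ‖(1 : ℂ)‖ + ‖(r : ℂ) ^ 2 * (x - 1) ^ 2‖ := norm_sub_le _ _
      _ = 1 + r ^ 2 * ‖x - 1‖ ^ 2 := by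
          rw [norm_one, norm_mul, norm_pow, norm_pow, Complex.norm_real, Real.norm_eq_abs, sq_abs]
  have hgen : ∀ (x : ℂ) (B : ℝ), ‖x‖ ≤ B → g x ≤ 1 + r ^ 2 * (1 + B) ^ 2 := by
    intro x B hx
    have h2 : ‖x - 1‖ ≤ 1 + B := by
      calc ‖x - 1‖ ≤ ‖x‖ + ‖(1 : ℂ)‖ := norm_sub_le _ _
        _ ≤ 1 + B := by rw [norm_one]; linarith
    refine (hgx x).trans ?_
    have := pow_le_pow_left₀ (norm_nonneg _) h2 2
    nlinarith [sq_nonneg r]
  have hdecomp : (M.map g).prod = ((M.filter (fun x => R < ‖x‖)).map g).prod *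
      (((M.filter (fun x => ¬ R < ‖x‖)).filter (fun x => x ≠ 1)).map g).prod := by
    rw [← Multiset.filter_add_not (fun x => R < ‖x‖) M, Multiset.map_add, Multiset.prod_add]
    have e1 : (M.filter (fun x => R < ‖x‖) + M.filter (fun x => ¬ R < ‖x‖)) = M :=
      Multiset.filter_add_not _ _
    rw [e1]
    congr 1
    conv_lhs => rw [← Multiset.filter_add_not (fun x => x ≠ 1) (M.filter (fun x => ¬ R < ‖x‖))]
    rw [Multiset.map_add, Multiset.prod_add]
    have : (((M.filter (fun x => ¬ R < ‖x‖)).filter (fun x => ¬ x ≠ 1)).map g).prod = 1 := by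
      apply Multiset.prod_eq_one
      intro y hy
      rw [Multiset.mem_map] at hy
      obtain ⟨x, hx, rfl⟩ := hy
      have hx1 : x = 1 := by
        have := (Multiset.mem_filter.1 hx).2
        push Not at this
        exact this
      simp [hg, hx1]
    rw [this, mul_one]
  have hB1 : 1 ≤ 1 + r ^ 2 * (1 + R) ^ 2 := by
    have : 0 ≤ r ^ 2 * (1 + R) ^ 2 := by positivity
    linarith
  set ρ : ℝ := r / 32 with hρ
  have hρ0 : 0 < ρ := by rw [hρ]; positivity
  have hρr : ρ ≤ r := by rw [hρ]; linarith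
  have hρ1 : ρ ≤ 1 := by linarith
  have hratio : 2 * (r / ρ) ^ 2 = 2048 := by
    rw [hρ]; field_simp; norm_num
  rw [h1, hdecomp]
  apply mul_le_mul
  · -- the large eigenvalues
    have hbig : ∀ s : Multiset ℂ, (s.map g).prod
        ≤ (2048 : ℝ) ^ Multiset.card s * ((s.map (fun x => max 1 (ρ * ‖x - 1‖))).prod) ^ 2 := by
      intro s
      induction s using Multiset.induction_on with
      | empty => simp
      | cons a s ih =>
        rw [Multiset.map_cons, Multiset.prod_cons, Multiset.card_cons, Multiset.map_cons,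
          Multiset.prod_cons]
        have h2 : g a ≤ 2048 * (max 1 (ρ * ‖a - 1‖)) ^ 2 := by
          have h3 := (hgx a).trans (factor_le hρ0 hρr (norm_nonneg (a - 1)))
          rwa [hratio] at h3
        have h4 : 0 ≤ (s.map g).prod := by
          apply Multiset.prod_nonneg
          intro y hy
          rw [Multiset.mem_map] at hy
          obtain ⟨x, _, rfl⟩ := hy
          exact norm_nonneg _
        calc g a * (s.map g).prod
            ≤ (2048 * (max 1 (ρ * ‖a - 1‖)) ^ 2) * ((2048 : ℝ) ^ Multiset.card s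
              * ((s.map (fun x => max 1 (ρ * ‖x - 1‖))).prod) ^ 2) :=
              mul_le_mul h2 ih h4 (by positivity)
          _ = _ := by ring
    refine (hbig _).trans ?_
    apply mul_le_mul_of_nonneg_left _ (by positivity)
    have h5 : ((M.filter (fun x => R < ‖x‖)).map (fun x => max 1 (ρ * ‖x - 1‖))).prod
        ≤ (M.map (fun x => max 1 (ρ * ‖x - 1‖))).prod := by
      conv_rhs => rw [← Multiset.filter_add_not (fun x => R < ‖x‖) M]
      rw [Multiset.map_add, Multiset.prod_add]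
      apply le_mul_of_one_le_right
      · apply Multiset.prod_nonneg
        intro y hy
        rw [Multiset.mem_map] at hy
        obtain ⟨x, _, rfl⟩ := hy
        exact le_trans zero_le_one (le_max_left _ _)
      · apply Multiset.one_le_prod
        intro y hy
        rw [Multiset.mem_map] at hy
        obtain ⟨x, _, rfl⟩ := hy
        exact le_max_left _ _
    have h6 := h5.trans (jensen' hρ0 hρ1 hn)
    rw [show 1 + 2 * ρ = 1 + r / 16 by rw [hρ]; ring] at h6
    apply pow_le_pow_left₀ _ h6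
    apply Multiset.prod_nonneg
    intro y hy
    rw [Multiset.mem_map] at hy
    obtain ⟨x, _, rfl⟩ := hy
    exact le_trans zero_le_one (le_max_left _ _)
  · calc (((M.filter (fun x => ¬ R < ‖x‖)).filter (fun x => x ≠ 1)).map g).prod
        ≤ (1 + r ^ 2 * (1 + R) ^ 2) ^
          Multiset.card (((M.filter (fun x => ¬ R < ‖x‖)).filter (fun x => x ≠ 1)).map g) := by
          apply prod_le_pow_card
          · intro y hy
            rw [Multiset.mem_map] at hy
            obtain ⟨x, hx, rfl⟩ := hy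
            exact norm_nonneg _
          · intro y hy
            rw [Multiset.mem_map] at hy
            obtain ⟨x, hx, rfl⟩ := hy
            apply hgen
            exact not_lt.1 (Multiset.mem_filter.1 (Multiset.mem_filter.1 hx).1).2
      _ ≤ _ := by
          rw [Multiset.card_map]
          refine pow_le_pow_right₀ hB1 (le_trans ?_ (card_ne_one n))
          apply Multiset.card_le_card
          exact Multiset.filter_le_filter _ (Multiset.filter_le _ _)
  · apply Multiset.prod_nonneg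
    intro y hy
    rw [Multiset.mem_map] at hy
    obtain ⟨x, hx, rfl⟩ := hy
    exact norm_nonneg _
  · positivity

lemma aux3 {R r : ℝ} (hr : 0 < r) (hr2 : r ^ 2 * (1 + R) ^ 2 ≤ r / 16) (hr1 : r ≤ 1) {n : ℕ} (hn : 1 ≤ n) :
    (1 + r ^ 2 * (1 + R) ^ 2) ^ (Nat.log 2 n + 1) ≤ 2 * (n : ℝ) ^ (r / 8) := by
  have hy : 1 + r ^ 2 * (1 + R) ^ 2 ≤ (2 : ℝ) ^ (r / 8) := by
    have h9 : (2 : ℝ) ^ (r / 8) = Real.exp (Real.log 2 * (r / 8)) :=
      Real.rpow_def_of_pos (by norm_num) _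
    rw [h9]
    have h10 := Real.add_one_le_exp (Real.log 2 * (r / 8))
    have h11 := Real.log_two_gt_d9
    have h12 : 1 / 2 * (r / 8) ≤ Real.log 2 * (r / 8) :=
      mul_le_mul_of_nonneg_right (by linarith) (by positivity)
    linarith
  rw [pow_succ, mul_comm]
  apply mul_le_mul
  · linarith
  · calc (1 + r ^ 2 * (1 + R) ^ 2) ^ (Nat.log 2 n)
        ≤ ((2 : ℝ) ^ (r / 8)) ^ (Nat.log 2 n) := by
          apply pow_le_pow_left₀ _ hy
          positivity
      _ = ((2 : ℝ) ^ (Nat.log 2 n)) ^ (r / 8) := by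
          rw [← Real.rpow_natCast, ← Real.rpow_natCast, ← Real.rpow_mul (by norm_num),
            ← Real.rpow_mul (by norm_num), mul_comm]
      _ ≤ (n : ℝ) ^ (r / 8) := by
          apply Real.rpow_le_rpow (by positivity) _ (by positivity)
          exact_mod_cast Nat.pow_log_le_self 2 (by omega)
  · positivity
  · norm_num

lemma pow_card_le {r : ℝ} (hr : 0 < r) {n k : ℕ} (hn : 1 ≤ n) (hk : (k : ℝ) ≤ r / 64 * Real.log n) :
    (2048 : ℝ) ^ k ≤ (n : ℝ) ^ (r / 8) := by
  have hn0 : (0 : ℝ) < n := by exact_mod_cast hn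
  have hlog : 0 ≤ Real.log n := Real.log_nonneg (by exact_mod_cast hn)
  rw [← Real.rpow_natCast, Real.rpow_def_of_pos (by norm_num), Real.rpow_def_of_pos hn0]
  apply Real.exp_le_exp.2
  have h1 : Real.log 2048 = 11 * Real.log 2 := by
    rw [show (2048 : ℝ) = 2 ^ 11 by norm_num, Real.log_pow]; norm_num
  rw [h1]
  have h2 := Real.log_two_lt_d9
  have h3 : 11 * Real.log 2 ≤ 8 := by linarith
  have h4 : 0 ≤ Real.log 2 := Real.log_nonneg (by norm_num)
  calc 11 * Real.log 2 * (k : ℝ) ≤ 8 * (r / 64 * Real.log n) :=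
        mul_le_mul h3 hk (Nat.cast_nonneg _) (by norm_num)
    _ = Real.log n * (r / 8) := by ring

lemma T_neg_bound' {R r : ℝ} (hR : 1 ≤ R) (hr : 0 < r) (hr1 : r ≤ 1)
    (hr2 : r ^ 2 * (1 + R) ^ 2 ≤ r / 16) {D : ℕ} (hD : 1 ≤ D)
    (hsum : 1 ≤ r * ∑ d ∈ Finset.Ioc 1 D, (d : ℝ) ^ (-(1 + r / 2))) {N : ℕ}
    (h : ∀ n ≥ N, (Multiset.card ((redC n).charpoly.roots.filter (fun x => R < ‖x‖)) : ℝ)
      ≤ r / 64 * Real.log n)
    {ε : ℝ} (hε : 0 < ε) :
    ∃ C : ℝ, ∀ n : ℕ, 1 ≤ n → |T (-r) n| ≤ C * (n : ℝ) ^ (1 + ε) := by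
  set β : ℝ := 1 + r / 2 with hβ
  have hβ0 : 0 < β := by rw [hβ]; positivity
  have hD0 : (0 : ℝ) < D := by exact_mod_cast hD
  set c : ℝ := (D : ℝ) ^ (-β) with hc
  have hc0 : 0 < c := by rw [hc]; positivity
  -- eventually `r c n^β / 2 ≥ 2`
  obtain ⟨N1, hN1⟩ : ∃ N1 : ℕ, ∀ n ≥ N1, 2 ≤ r * c / 2 * (n : ℝ) ^ β := by
    have h1 : Tendsto (fun n : ℕ => r * c / 2 * (n : ℝ) ^ β) atTop atTop := by
      apply Tendsto.const_mul_atTop (by positivity)
      exact (tendsto_rpow_atTop hβ0).comp tendsto_natCast_atTop_atTop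
    exact eventually_atTop.1 (h1.eventually_ge_atTop 2)
  -- main bound for large n
  have hmain : ∀ n : ℕ, 1 ≤ n → N ≤ n → N1 ≤ n →
      ‖G n (-(r : ℂ))‖ ≤ 16 / (r * c) * (n : ℝ) := by
    intro n hn hnN hnN1
    have hn0 : (0 : ℝ) < n := by exact_mod_cast hn
    have hn1 : (1 : ℝ) ≤ n := by exact_mod_cast hn
    have hT := T_lower hr hβ0 hD hsum n n hn1 (by simp)
    rw [Nat.floor_natCast] at hT
    have hG1 : r * c / 2 * (n : ℝ) ^ β ≤ ‖G n (r : ℂ)‖ := by
      rw [G_eq_T r hn, Complex.norm_real, Real.norm_eq_abs]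
      have h2 := hN1 n hnN1
      have h3 : r * (c * (n : ℝ) ^ β) ≤ r * T r n := mul_le_mul_of_nonneg_left hT hr.le
      have h4 := neg_abs_le (1 - r * (T r n - 1))
      nlinarith
    have hGG := GG_bound' hn hR hr hr1
    rw [norm_mul] at hGG
    have hA := pow_card_le hr hn (h n hnN)
    have hB := aux3 hr hr2 hr1 hn
    have hprod : ‖G n (r : ℂ)‖ * ‖G n (-(r : ℂ))‖ ≤
        (n : ℝ) ^ (r / 8) * (2 * (n : ℝ) ^ (1 + r / 16)) ^ 2 * (2 * (n : ℝ) ^ (r / 8)) := by
      refine hGG.trans ?_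
      apply mul_le_mul _ hB (by positivity) (by positivity)
      exact mul_le_mul_of_nonneg_right hA (by positivity)
    have hexp : (n : ℝ) ^ (r / 8) * (2 * (n : ℝ) ^ (1 + r / 16)) ^ 2 * (2 * (n : ℝ) ^ (r / 8))
        = 8 * (n : ℝ) ^ (2 + 3 * r / 8) := by
      have e1 : ((n : ℝ) ^ (1 + r / 16)) ^ 2 = (n : ℝ) ^ (2 + r / 8) := by
        rw [← Real.rpow_natCast, ← Real.rpow_mul hn0.le]
        congr 1
        push_cast
        ring
      rw [mul_pow, e1]
      have e2 : (n : ℝ) ^ (r / 8) * (n : ℝ) ^ (2 + r / 8) * (n : ℝ) ^ (r / 8)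
          = (n : ℝ) ^ (2 + 3 * r / 8) := by
        rw [← Real.rpow_add hn0, ← Real.rpow_add hn0]
        congr 1
        ring
      rw [← e2]; ring
    rw [hexp] at hprod
    have hprod2 : (r * c / 2 * (n : ℝ) ^ β) * ‖G n (-(r : ℂ))‖ ≤ 8 * (n : ℝ) ^ (2 + 3 * r / 8) :=
      (mul_le_mul_of_nonneg_right hG1 (norm_nonneg _)).trans hprod
    have hle : (n : ℝ) ^ (2 + 3 * r / 8) ≤ (n : ℝ) ^ β * n := by
      rw [← Real.rpow_add_one hn0.ne']
      apply Real.rpow_le_rpow_of_exponent_le hn1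
      rw [hβ]; linarith
    have hnβ : 0 < (n : ℝ) ^ β := by positivity
    have h12 : (r * c / 2) * ‖G n (-(r : ℂ))‖ ≤ 8 * n := by
      have h13 : (n : ℝ) ^ β * ((r * c / 2) * ‖G n (-(r : ℂ))‖) ≤ (n : ℝ) ^ β * (8 * n) := by
        calc (n : ℝ) ^ β * ((r * c / 2) * ‖G n (-(r : ℂ))‖)
            = (r * c / 2 * (n : ℝ) ^ β) * ‖G n (-(r : ℂ))‖ := by ring
          _ ≤ 8 * (n : ℝ) ^ (2 + 3 * r / 8) := hprod2
          _ ≤ 8 * ((n : ℝ) ^ β * n) := mul_le_mul_of_nonneg_left hle (by norm_num)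
          _ = _ := by ring
      exact le_of_mul_le_mul_left h13 hnβ
    have hrc : 0 < r * c := by positivity
    rw [div_mul_eq_mul_div, le_div_iff₀ hrc]
    linarith
  set N2 := max N N1 with hN2
  set C1 : ℝ := (16 / (r * c) + 2) / r with hC1
  have hC1' : 0 ≤ C1 := by rw [hC1]; positivity
  refine ⟨C1 + ∑ m ∈ Finset.range N2, |T (-r) m|, ?_⟩
  intro n hn
  have hn0 : (0 : ℝ) < n := by exact_mod_cast hn
  have hn1 : (1 : ℝ) ≤ n := by exact_mod_cast hn
  have hpow : (n : ℝ) ≤ (n : ℝ) ^ (1 + ε) := by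
    calc (n : ℝ) = (n : ℝ) ^ (1 : ℝ) := (Real.rpow_one _).symm
      _ ≤ _ := Real.rpow_le_rpow_of_exponent_le hn1 (by linarith)
  have hsum0 : 0 ≤ ∑ m ∈ Finset.range N2, |T (-r) m| := Finset.sum_nonneg fun _ _ => abs_nonneg _
  rcases lt_or_ge n N2 with hlt | hge
  · have h1 : |T (-r) n| ≤ ∑ m ∈ Finset.range N2, |T (-r) m| :=
      Finset.single_le_sum (f := fun m => |T (-r) m|) (fun _ _ => abs_nonneg _)
        (Finset.mem_range.2 hlt)
    have h2 : C1 + ∑ m ∈ Finset.range N2, |T (-r) m| ≤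
        (C1 + ∑ m ∈ Finset.range N2, |T (-r) m|) * (n : ℝ) ^ (1 + ε) :=
      le_mul_of_one_le_right (by linarith) (by linarith)
    linarith
  · have h1 := hmain n hn (le_trans (le_max_left _ _) hge) (le_trans (le_max_right _ _) hge)
    have h2 : G n (-(r : ℂ)) = ((1 - (-r) * (T (-r) n - 1) : ℝ) : ℂ) := by
      rw [← G_eq_T (-r) hn]
      push_cast
      rfl
    rw [h2, Complex.norm_real, Real.norm_eq_abs] at h1
    have h5 : r * |T (-r) n| ≤ (16 / (r * c) + 2) * (n : ℝ) ^ (1 + ε) := by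
      have h6 : |r * T (-r) n| ≤ |1 - (-r) * (T (-r) n - 1)| + |(-1 : ℝ) + r| := by
        calc |r * T (-r) n| = |(1 - (-r) * (T (-r) n - 1)) + (-1 + r)| := by congr 1; ring
          _ ≤ _ := abs_add_le _ _
      rw [abs_mul, abs_of_pos hr] at h6
      have h7 : |(-1 : ℝ) + r| ≤ 2 := by rw [abs_le]; constructor <;> linarith
      have h8 : 16 / (r * c) * (n : ℝ) ≤ 16 / (r * c) * (n : ℝ) ^ (1 + ε) :=
        mul_le_mul_of_nonneg_left hpow (by positivity)
      linarith
    have h8 : |T (-r) n| ≤ C1 * (n : ℝ) ^ (1 + ε) := by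
      rw [hC1, div_mul_eq_mul_div, le_div_iff₀ hr]
      linarith
    have h9 : 0 ≤ (∑ m ∈ Finset.range N2, |T (-r) m|) * (n : ℝ) ^ (1 + ε) :=
      mul_nonneg hsum0 (by linarith)
    linarith

/-- for infinitely many `n`, at least `c log n` eigenvalues have modulus larger than `R` -/
theorem many (R : ℝ) (hR : 1 ≤ R) : ∃ c : ℝ, 0 < c ∧ ∀ N : ℕ, ∃ n ≥ N, c * Real.log n <
    (Multiset.card ((redC n).charpoly.roots.filter (fun x => R < ‖x‖)) : ℝ) := by
  obtain ⟨r0, hr0, hD⟩ := exists_D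
  obtain ⟨s, hs, x, hx, hζ⟩ := Zneg.zeta_neg_large (max (1 / r0) (16 * (1 + R) ^ 2))
  have hx1 : 1 / r0 ≤ x := (le_max_left _ _).trans hx
  have hx2 : 16 * (1 + R) ^ 2 ≤ x := (le_max_right _ _).trans hx
  have hR2 : 0 < (1 + R) ^ 2 := by positivity
  have hx0 : 0 < x := by linarith
  set r : ℝ := 1 / (1 + x) with hr
  have hrpos : 0 < r := by rw [hr]; positivity
  have hr1 : r ≤ 1 := by rw [hr, div_le_one (by positivity)]; linarith
  have hrr0 : r < r0 := by
    rw [hr, div_lt_iff₀ (by positivity)]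
    rw [div_le_iff₀ hr0] at hx1
    nlinarith
  have hr2 : r ^ 2 * (1 + R) ^ 2 ≤ r / 16 := by
    have h1 : r * (1 + R) ^ 2 ≤ 1 / 16 := by
      rw [hr, div_mul_eq_mul_div, one_mul, div_le_div_iff₀ (by positivity) (by norm_num)]
      linarith
    nlinarith
  obtain ⟨D, hD1, hD2⟩ := hD r hrpos hrr0
  refine ⟨r / 64, by positivity, ?_⟩
  by_contra hcon
  push Not at hcon
  obtain ⟨N, hN⟩ := hcon
  have hT : ∀ ε : ℝ, 0 < ε → ∃ C : ℝ, ∀ n : ℕ, 1 ≤ n → |T (-r) n| ≤ C * (n : ℝ) ^ (1 + ε) :=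
    fun ε hε => T_neg_bound' hR hrpos hr1 hr2 hD1 hD2 hN hε
  have h := zeta_ne hT hs
  apply h
  rw [hζ, hr]
  push_cast
  have : (1 + x : ℂ) ≠ 0 := by
    have : (1 + x : ℝ) ≠ 0 := by positivity
    exact_mod_cast this
  field_simp
  ring

/-- removing the trivial eigenvalues and two further ones loses at most two large eigenvalues -/
lemma card_remaining {n k : ℕ} {R : ℝ} (hR : 1 ≤ R) (a b : ℂ) :
    Multiset.card ((redC n).charpoly.roots.filter (fun x => R < ‖x‖))
      ≤ Multiset.card (((redC n).charpoly.roots - Multiset.replicate k 1 - {a, b}).filter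
        (fun x => R < ‖x‖)) + 2 := by
  set M := (redC n).charpoly.roots with hM
  have h1 : M ≤ (M - Multiset.replicate k 1 - {a, b}) + (Multiset.replicate k 1 + {a, b}) := by
    rw [tsub_tsub]
    exact le_tsub_add
  have h2 := Multiset.filter_le_filter (fun x : ℂ => R < ‖x‖) h1
  have h3 := Multiset.card_le_card h2
  rw [Multiset.filter_add, Multiset.filter_add, Multiset.card_add, Multiset.card_add] at h3
  have h5 : (Multiset.replicate k (1 : ℂ)).filter (fun x : ℂ => R < ‖x‖) = 0 := by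
    rw [Multiset.filter_eq_nil]
    intro x hx
    rw [Multiset.eq_of_mem_replicate hx, norm_one]
    exact not_lt.2 hR
  rw [h5, Multiset.card_zero] at h3
  have h6 : Multiset.card (({a, b} : Multiset ℂ).filter (fun x : ℂ => R < ‖x‖)) ≤ 2 :=
    (Multiset.card_le_card (Multiset.filter_le _ _)).trans (by simp)
  omega

theorem main (R : ℝ) : ∃ c : ℝ, 0 < c ∧ ∀ N : ℕ, ∃ n ≥ N, ∀ a b : ℂ, c * Real.log n ≤
    (Multiset.card (((redC n).charpoly.roots - Multiset.replicate (n - Nat.log 2 n - 1) 1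
      - {a, b}).filter (fun x => R < ‖x‖)) : ℝ) := by
  obtain ⟨c, hc, h⟩ := many (max R 1) (le_max_right _ _)
  refine ⟨c / 2, by positivity, fun N => ?_⟩
  obtain ⟨N1, hN1⟩ : ∃ N1 : ℕ, ∀ n ≥ N1, 4 / c ≤ Real.log n :=
    eventually_atTop.1 ((Real.tendsto_log_atTop.comp tendsto_natCast_atTop_atTop).eventually_ge_atTop _)
  obtain ⟨n, hn, hcard⟩ := h (max N N1)
  refine ⟨n, le_trans (le_max_left _ _) hn, fun a b => ?_⟩
  have h1 := hN1 n (le_trans (le_max_right _ _) hn)
  rw [div_le_iff₀ hc] at h1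
  have h2 := card_remaining (n := n) (k := n - Nat.log 2 n - 1) (le_max_right R 1) a b
  have h3 : Multiset.card (((redC n).charpoly.roots - Multiset.replicate (n - Nat.log 2 n - 1) 1
      - {a, b}).filter (fun x => max R 1 < ‖x‖))
      ≤ Multiset.card (((redC n).charpoly.roots - Multiset.replicate (n - Nat.log 2 n - 1) 1
      - {a, b}).filter (fun x => R < ‖x‖)) :=
    Multiset.card_le_card (Multiset.monotone_filter_right _ fun x hx =>
      lt_of_le_of_lt (le_max_left _ _) hx)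
  have h4 : (Multiset.card ((redC n).charpoly.roots.filter (fun x => max R 1 < ‖x‖)) : ℝ)
      ≤ (Multiset.card (((redC n).charpoly.roots - Multiset.replicate (n - Nat.log 2 n - 1) 1
      - {a, b}).filter (fun x => R < ‖x‖)) : ℝ) + 2 := by exact_mod_cast h2.trans (by omega)
  linarith

end Pool.Agent.Y856.RF
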